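import Mathlib
import Pool.Agent.MM7.Defs
import Pool.Agent.K3R.LFunSeven

/-!
Part L of MM7: entire continuation of the L-function of the CM newform of weight 3 and
level 7, and its derivative at `-1`.
-/

open Complex Real Set Filter Topology

namespace MM7L

open MM7

lemma om_eq : om = BZLFun.om := by
  rw [om, rt, BZLFun.om]
  push_cast
  ring

lemma xx_eq (p : ℤ × ℤ) : xx p = BZLFun.el p := by
  rw [xx, BZLFun.el, om_eq]

lemma normSq_xx (p : ℤ × ℤ) : Complex.normSq (xx p) = BZLFun.Nm p := by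
  rw [BZLFun.Nm_eq, xx_eq, Complex.normSq_eq_norm_sq]

lemma Lser_hasSum {s : ℂ} (hs : 2 < s.re) :
    HasSum (fun p : ℤ × ℤ => (1 / 2 : ℂ) * (xx p ^ 2 / ((Complex.normSq (xx p) : ℝ) : ℂ) ^ s))
      (BZLFun.Lf s) := by
  have h := BZLFun.hasSum_Lf hs
  refine h.congr_fun'' fun p => ?_
  rw [normSq_xx, xx_eq]

lemma Lser_eq {s : ℂ} (hs : 2 < s.re) : BZLFun.Lf s = Lser s := by
  rw [Lser, ← tsum_mul_left]
  exact (Lser_hasSum hs).tsum_eq.symm

end MM7L

namespace MM7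

open MM7L

theorem L_exists : ∃ L : ℂ → ℂ, Differentiable ℂ L ∧ ∀ s : ℂ, 2 < s.re → L s = Lser s :=
  ⟨BZLFun.Lf, BZLFun.Lf_diff, fun _ hs => Lser_eq hs⟩

end MM7

namespace MM7L

open MM7

lemma xx_cj (p : ℤ × ℤ) : xx (BZLFun.cj p) = (starRingEnd ℂ) (xx p) := by
  rw [xx_eq, xx_eq, BZLFun.el_cj]

lemma E42_conj : (starRingEnd ℂ) E42 = E42 := by
  unfold E42
  rw [Complex.conj_tsum, ← BZLFun.cj.tsum_eq]
  refine tsum_congr fun p => ?_
  rw [xx_cj, map_div₀, map_mul, map_pow, map_pow, Complex.conj_conj, map_one]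

end MM7L

namespace MM7

open MM7L

theorem E42_real : E42.im = 0 := Complex.conj_eq_iff_im.mp E42_conj

end MM7

namespace MM7L

open MM7

lemma Lser_four : Lser 4 = E42 / 2 := by
  rw [Lser, E42, ← BZLFun.cj.tsum_eq, mul_comm, mul_one_div]
  congr 1
  refine tsum_congr fun p => ?_
  rw [xx_cj]
  have h4 : ∀ z : ℂ, z ^ (4 : ℂ) = z ^ 4 := fun z => by
    rw [show (4 : ℂ) = ((4 : ℕ) : ℂ) by norm_num, Complex.cpow_natCast]
  rw [h4, Complex.normSq_conj, ← Complex.mul_conj]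
  by_cases h : xx p = 0
  · simp [h]
  · have h2 : (starRingEnd ℂ) (xx p) ≠ 0 := by simpa using h
    field_simp

end MM7L

namespace MM7

open MM7L

theorem L_deriv (L : ℂ → ℂ) (hL : Differentiable ℂ L) (h : ∀ s : ℂ, 2 < s.re → L s = Lser s) :
    deriv L (-1) = -((3 * (7 : ℝ) ^ (5 / 2 : ℝ) * (2 * π) ^ (-5 : ℤ) : ℝ) : ℂ) * E42 := by
  have heq : L = BZLFun.Lf := by
    have h1 : AnalyticOnNhd ℂ L univ := fun z _ => hL.analyticAt z
    have h2 : AnalyticOnNhd ℂ BZLFun.Lf univ := fun z _ => BZLFun.Lf_diff.analyticAt z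
    refine AnalyticOnNhd.eq_of_eventuallyEq h1 h2 (z₀ := 3) ?_
    have hev : ∀ᶠ s : ℂ in 𝓝 3, 2 < s.re :=
      (isOpen_lt continuous_const Complex.continuous_re).mem_nhds (by simp; norm_num)
    filter_upwards [hev] with s hs
    rw [h s hs, Lser_eq hs]
  rw [heq, BZLFun.deriv_Lf, Lser_eq (by norm_num), Lser_four]
  have h7 : (7 : ℝ) ^ (5 / 2 : ℝ) = √7 ^ 5 := by
    rw [Real.sqrt_eq_rpow, ← Real.rpow_natCast, ← Real.rpow_mul (by norm_num)]
    norm_num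
  rw [h7]
  have hp : (π : ℂ) ≠ 0 := Complex.ofReal_ne_zero.mpr pi_pos.ne'
  push_cast
  rw [zpow_neg]
  norm_cast
  push_cast
  field_simp
  ring

theorem zeta_deriv : deriv riemannZeta (-2) = -(riemannZeta 3) / (4 * π ^ 2) :=
  BZLFun.deriv_zeta_neg_two

end MM7
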